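import Pool.Agent.H865.NF.Main
import Pool.Agent.H865.NF.Cyc

/-!
MP_4d1008_ag: resolution of singularities in mixed characteristic for the quotients of linear
representations of finite abelian groups over number fields (the fields of Noether's problem), in
every dimension.

Let `E` be a number field, let `L = E(x 1, ..., x n)` be the field of rational functions in `n`
variables, and let `A` be a finite abelian group of automorphisms of `L` over `E` which maps linear
forms to linear forms. Every integral scheme of finite type over the integers whose function field is
the field of invariants of `A`, that is, every scheme birational to the quotient of the affine space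
over `E` by `A`, has a regular model which is proper over the integers, if

* no element of `A` has order `p ^ 3` for a prime number `p`, or, more generally,
* the order of no inertia group of the extension of `E` by the roots of unity of order the exponent
  of `A` is divisible by the square of the residue characteristic.

There is no condition on the residue characteristics of the scheme: the action is wild at the primes
which divide the order of `A`. The field of invariants is in general not rational, not even stably
rational, for example for the cyclic group of order `47` acting on `ℚ(x 1, ..., x 47)` (Swan,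
Voskresenskii, Lenstra), so that projective space is not a model.

The proof: over the cyclotomic extension `M` of `E` the linear forms have a basis of eigenvectors of
`A` which is permuted by the Galois group (the components of the variables, chosen greedily); the
invariant Laurent monomials in this basis generate the field of invariants over `M`, which so is
the function field of a torus split by `M`. The inertia groups of `M` over `E` are controlled by
those of the cyclotomic fields, and the theorem on algebraic tori of the library
(MP_4d1008_ag.AlgebraicTori, wild ramification of order `p`) applies.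
-/

set_option autoImplicit false
set_option linter.style.haveILetI false

open AlgebraicGeometry CategoryTheory

open scoped NumberField

namespace Pool.Agent.Results.MP_4d1008_ag.AbelianLinearQuotients

/-- `L` is the field of rational functions over `E` in the variables `x i`. -/
structure IsRationalFunctionField (E : Type) {L : Type} [Field E] [Field L] [Algebra E L] {n : ℕ}
    (x : Fin n → L) : Prop where
  algebraicIndependent : AlgebraicIndependent E x
  generates : IntermediateField.adjoin E (Set.range x) = ⊤

/-- `A` is a finite commutative group of automorphisms of `L` over `E`, which map the variables `x i`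
to linear forms in the variables, with coefficients in `E`. -/
structure IsLinearAbelian {E L : Type} [Field E] [Field L] [Algebra E L] {n : ℕ} (x : Fin n → L)
    (A : Subgroup (L ≃ₐ[E] L)) : Prop where
  finite : Finite A
  commutative : ∀ a ∈ A, ∀ b ∈ A, a * b = b * a
  linear : ∀ a ∈ A, ∀ i, a (x i) ∈ Submodule.span E (Set.range x)

/-- The inertia group of the ideal `𝔓` of the ring of integers of `M`: the automorphisms of `M` over
`E` which act trivially modulo `𝔓`. -/
def inertiaGroup (E : Type) {M : Type} [Field E] [Field M] [Algebra E M] (𝔓 : Ideal (𝓞 M)) :
    Set (M ≃ₐ[E] M) :=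
  {g | ∀ o : 𝓞 M, ∃ e ∈ 𝔓, (e : M) = g o - o}

/-- The orders of the inertia groups of the maximal ideals of the ring of integers of `M` over `E`
are not divisible by the square of the residue characteristic. -/
def HasSmallWildInertia (E M : Type) [Field E] [Field M] [Algebra E M] : Prop :=
  ∀ 𝔓 : Ideal (𝓞 M), 𝔓.IsMaximal → ∀ p : ℕ, p.Prime → (p : 𝓞 M) ∈ 𝔓 →
    ¬ p ^ 2 ∣ Nat.card (inertiaGroup E 𝔓)

/-- The integral scheme `Y` has the same function field as some integral scheme, proper over `ℤ`, all
of whose local rings are regular. -/
def IsBirationalToRegularProper (Y : Scheme.{0}) [IsIntegral Y] : Prop :=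
  ∃ (X' : Scheme.{0}) (_ : IsIntegral X') (g : X' ⟶ Spec (CommRingCat.of ℤ)),
    IsProper g ∧
    (∀ x : X', (((Module.finrank (IsLocalRing.ResidueField (X'.presheaf.stalk x))
      (IsLocalRing.CotangentSpace (X'.presheaf.stalk x)) : ℕ∞)) : WithBot ℕ∞) =
        ringKrullDim (X'.presheaf.stalk x)) ∧
    Nonempty (X'.functionField ≃+* Y.functionField)

theorem result :
    ∀ (E : Type) [Field E] [NumberField E] (L : Type) [Field L] [Algebra E L] (n : ℕ)
      (x : Fin n → L), IsRationalFunctionField E x →
      ∀ A : Subgroup (L ≃ₐ[E] L), IsLinearAbelian x A →
      ((∀ a ∈ A, ∀ p : ℕ, p.Prime → orderOf a ≠ p ^ 3) ∨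
        HasSmallWildInertia E (CyclotomicField (Monoid.exponent A) E)) →
      -- every integral scheme of finite type over the integers birational to the quotient
      ∀ (Y : Scheme.{0}) [IsIntegral Y] (s : Y ⟶ Spec (CommRingCat.of ℤ)),
      LocallyOfFiniteType s → QuasiCompact s →
      Nonempty (Y.functionField ≃+* IntermediateField.fixedField A) →
      IsBirationalToRegularProper Y := by
  intro E _ _ L _ _ n x hx A hA hin Y _ s hs hs' hF
  haveI := hA.finite
  letI : CommGroup A :=
    { (inferInstance : Group A) with
      mul_comm := fun a b => Subtype.ext (hA.commutative a a.2 b b.2) }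
  have hm0 : Monoid.exponent A ≠ 0 := Monoid.exponent_ne_zero_of_finite
  haveI : NeZero (Monoid.exponent A) := ⟨hm0⟩
  let M := CyclotomicField (Monoid.exponent A) E
  haveI : IsGalois E M := IsCyclotomicExtension.isGalois {Monoid.exponent A} E M
  haveI : HasEnoughRootsOfUnity M (Monoid.exponent A) :=
    ⟨⟨_, IsCyclotomicExtension.zeta_spec (Monoid.exponent A) E M⟩, inferInstance⟩
  have hin' : ∀ 𝔓 : Ideal (𝓞 M), 𝔓.IsMaximal →
      ¬ Pool.Agent.Results.MP_4d1008_ag.AlgebraicTori.ResCharPowDvd E 𝔓 2 := by
    rcases hin with h | h
    · apply Pool.Agent.H865.NF.not_dvd_inertia E M (m := Monoid.exponent A)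
      intro p hp hdvd
      obtain ⟨g, hg⟩ := Monoid.exists_orderOf_eq_exponent
        (Monoid.ExponentExists.of_finite (G := A))
      obtain ⟨k, hk⟩ := hdvd
      have hk0 : k ≠ 0 := by
        rintro rfl
        rw [mul_zero] at hk
        exact hm0 hk
      have h1 : orderOf (g ^ k) = p ^ 3 := by
        rw [orderOf_pow_of_dvd hk0 (by rw [hg, hk]; exact dvd_mul_left _ _), hg, hk,
          Nat.mul_div_cancel _ (Nat.pos_of_ne_zero hk0)]
      have h2 := h (g ^ k : A) (g ^ k : A).2 p hp
      rw [Subgroup.orderOf_coe] at h2
      exact h2 h1
    · rintro 𝔓 h𝔓 ⟨p, hp, hp𝔓, hdvd⟩
      exact h 𝔓 h𝔓 p hp hp𝔓 hdvd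
  have h1 : (A.subtype : A →* (L ≃ₐ[E] L)).range = A := Subgroup.range_subtype A
  refine Pool.Agent.H865.NF.model_of_comm E M hin' L n x hx.algebraicIndependent hx.generates A
    A.subtype (fun a i => hA.linear a a.2 i) Y s hs hs' ?_
  rw [h1]
  exact hF

end Pool.Agent.Results.MP_4d1008_ag.AbelianLinearQuotients
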