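import Pool.Agent.H893.TW.Cls
import Pool.Agent.H893.EC.Ring
import Pool.Agent.H893.SC.P_projmod
import Pool.Graph.R_seed8.H176.DT.G1
import Pool.Graph.R_seed8.H176.DT.H8
import Pool.Graph.R_seed8.TH188.QS.Bases

/-!
MP_4d1008_ag: simultaneous log uniformization, on schemes of finite type over the integers, of
finitely many independent valuations of arbitrary rank from a class with defect, in all dimensions
and in mixed characteristic.

Consider valuation rings of finitely generated fields of arbitrary dimension. We call a valuation
ring of a field `K` of characteristic `p > 0` nearly Abhyankar if it has rank one and if it misses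
equality in the Abhyankar inequality by at most one: `tr.deg(K)` is `r + s` or `r + s + 1`, where
`r ≥ 1` is the rational rank and `s` is the transcendence degree of the residue field (over `𝔽_p`);
in the second case the residue field has to be finitely generated, and infinite if `r = 1`. In the
second case the value group and the defect are arbitrary. We call it ruled of deficiency two if it
has rank one, its residue field is finitely generated, `tr.deg(K) = r + s + 2` with `r ≥ 2`, and
`K = E(t)` for a finitely generated subfield `E` of the transcendence degree `r + s + 1` which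
contains elements with `r` independent values and lifts of the elements of a separating
transcendence basis of the residue field.

Let `Admissible` be the smallest class of valuation rings which contains the nearly Abhyankar ones,
the ruled ones of deficiency two, the discrete and the divergent ones, and the ones which are known
to be log uniformizable (in residue characteristic zero by Hironaka, in dimension at most `3` by
Cossart and Piltant), and which is closed under composition, under towers without defect, and under
henselian descent. The valuation rings of mixed characteristic in the class are composites: for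
example `V` can be the composite of a discrete valuation ring of a field of characteristic zero,
whose residue field has characteristic `p`, and of a nearly Abhyankar or ruled valuation ring.

Let `V 0, ..., V (m - 1)` be finitely many pairwise independent nontrivial valuation rings in this
class of a finitely generated field `K`; they can have different ranks, characteristics and residue
characteristics, and their centres need not be different.

1. (Projective models.) Every projective scheme `X` over `ℤ` with the function field `K` has a
   blowing-up `X'`, again projective over `ℤ` and birational to `X`, which is regular at the centres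
   of all the `V i`. (In Q1 the scheme `X'` has to be regular at the centres of all valuation rings
   of `K`.)
2. (Affine models.) Let `X = Spec A` be an integral affine scheme of finite type over `ℤ` with the
   function field `K` on which the `V i` are centred. For every closed subset `V(D) ≠ X` and for
   every blowing-up `X₀` of `X` there is a blowing-up `X'` of `X` in the product of the ideal of `X₀`
   and of an ideal `I₁`, which is a log desingularization of `(X, V(D))` along all the `V i` at the
   same time: `X'` is regular at the centres of all `V i`, and the preimage of `V(D)` and of the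
   centre of the blowing-up is a divisor with strict normal crossings there. The zero set of `I₁` is
   contained in the union of the closures of the centres on `X` of the coarsenings of rank one of
   the `V i`; so `X' → X₀` is an isomorphism outside of the preimages of these closures.

A projective scheme with the function field `K` is given by a finite set `G` of nonzero elements of
`K`: it is `Proj ℤ[G T]`, which is covered by the spectra of the rings `ℤ[G / g]`, `g ∈ G`.
-/

set_option autoImplicit false

namespace Pool.Agent.Results.MP_4d1008_ag.ArithmeticSchemesWithDefect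

open IsLocalRing Pool.Agent.W418.LU2 Pool.Agent.TH188.QS Pool.Agent.H893.EC
open scoped NNReal

/-- The local ring of `Spec B` at the centre of the valuation ring `V`: the fractions of elements
of `B` whose denominators are units of `V`. -/
def centreRing {F : Type} [Field F] (V : ValuationSubring F) (B : Subring F) : Subring F where
  carrier := {x | ∃ a ∈ B, ∃ b ∈ B, b ≠ 0 ∧ b⁻¹ ∈ V ∧ x = a * b⁻¹}
  mul_mem' := (lo V.toSubring B).mul_mem'
  one_mem' := (lo V.toSubring B).one_mem'
  add_mem' := (lo V.toSubring B).add_mem'
  zero_mem' := (lo V.toSubring B).zero_mem'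
  neg_mem' := (lo V.toSubring B).neg_mem'

/-- The chart `A[I / f]` of the blowing-up of `Spec A` in the ideal `I`. -/
def blowUpChart {F : Type} [Field F] (A : Subring F) (I : Ideal A) (f : A) : Subring F :=
  Subring.closure ((A : Set F) ∪ {z | ∃ a ∈ I, z = (a : F) / (f : F)})

/-- `P` is a regular local ring and the zero set of `J` is a divisor with strict normal
crossings: the radical of `J` is generated by the product of some of the elements of a regular
system of parameters. -/
def RegularPair (P : Type) [CommRing P] (J : Ideal P) : Prop :=
  ∃ (_ : IsRegularLocalRing P) (n : ℕ) (x : Fin n → P) (s : Finset (Fin n)),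
    Ideal.span (Set.range x) = IsLocalRing.maximalIdeal P ∧ ringKrullDim P = n ∧
      J.radical = Ideal.span {∏ i ∈ s, x i}

/-- The blowing-up of `X = Spec A` in `V(I)` is a log desingularization of `(X, V(D))` along the
valuation ring `V`. Here `f ∈ I` generates `I V`, the centre of the lift of the valuation lies in
the chart `Spec A[I / f]`, and the ideal `D I` defines the preimage of `V(D) ∪ V(I)`. -/
def IsLogDesingularization {F : Type} [Field F] (V : ValuationSubring F) (A : Subring F)
    (D I : Ideal A) : Prop :=
  ∃ f ∈ I, f ≠ 0 ∧ (∀ a ∈ I, (a : F) / (f : F) ∈ V) ∧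
    RegularPair (centreRing V (blowUpChart A I f))
      (Ideal.span {z | ∃ a ∈ D * I, (z : F) = (a : F)})

/-- The valuation ring `V` is log uniformizable on `Spec A`. (The blowings-up in the ideals
`I₀ * I₁` are cofinal: the blowing-up in `I₀ * I₁` factors through the blowing-up in `I₀`.) -/
def IsLogUniformizable {F : Type} [Field F] (V : ValuationSubring F) (A : Subring F) : Prop :=
  ∀ D I₀ : Ideal A, D ≠ ⊥ → I₀ ≠ ⊥ →
    ∃ I₁ : Ideal A, I₁ ≠ ⊥ ∧ IsLogDesingularization V A D (I₀ * I₁)

/-- The valuation rings `V i` are simultaneously log uniformizable on `X = Spec A`: for every closed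
subset `V(D) ≠ X` and for every blowing-up `X₀` of `X` in an ideal `I₀` there is an ideal `I₁` such
that the blowing-up in `I₀ * I₁`, which factors through `X₀`, is a log desingularization of
`(X, V(D))` along all the `V i`, and every prime ideal which contains `I₁` contains the centre
`{a ∈ A | |a| < 1}` of a nontrivial valuation ring `W` which contains some `V i` (equivalently, the
centre of the coarsening of rank one of some `V i`; if `V i` has rank one, this is `V i`). -/
def IsSimultaneouslyLogUniformizable {K : Type} [Field K] {m : ℕ}
    (V : Fin m → ValuationSubring K) (A : Subring K) : Prop :=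
  ∀ D I₀ : Ideal A, D ≠ ⊥ → I₀ ≠ ⊥ →
    ∃ I₁ : Ideal A, I₁ ≠ ⊥ ∧ (∀ i, IsLogDesingularization (V i) A D (I₀ * I₁)) ∧
      ∀ q : Ideal A, q.IsPrime → I₁ ≤ q → ∃ (i : Fin m) (W : ValuationSubring K),
        V i ≤ W ∧ W ≠ ⊤ ∧ ∀ a : A, W.valuation (a : K) < 1 → a ∈ q

/-- Two valuation rings `V` and `W` of `K` are independent if `K` is the only valuation ring of `K`
which contains both. -/
def AreIndependent {K : Type} [Field K] (V W : ValuationSubring K) : Prop :=
  ∀ U : ValuationSubring K, V ≤ U → W ≤ U → U = ⊤

/-- Every element of the field `K` is a fraction of elements of `A`. -/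
def HasFractionField {K : Type} [Field K] (A : Subring K) : Prop :=
  ∀ z : K, ∃ a ∈ A, ∃ b ∈ A, b ≠ 0 ∧ z = a * b⁻¹

/-- The field `K` is finitely generated: it is the fraction field of a ring of finite type over the
integers. -/
def IsFinitelyGenerated (K : Type) [Field K] : Prop :=
  ∃ T : Set K, T.Finite ∧ HasFractionField (Subring.closure T)

/-- The ring `ℤ[G / g]` generated by the quotients `g' / g` of the elements `g'` of `G`. -/
def projectiveChart {K : Type} [Field K] (G : Set K) (g : K) : Subring K :=
  Subring.closure {z | ∃ g' ∈ G, z = g' / g}

/-- The finite nonempty set `G` of nonzero elements of `K` defines the integral projective scheme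
`X(G) = Proj ℤ[G T]` over `ℤ`, which is covered by the spectra of the rings `ℤ[G / g]`, `g ∈ G`. It
is a projective model of `K` if its function field is `K`. -/
structure IsProjectiveModel {K : Type} [Field K] (G : Set K) : Prop where
  /-- the set is finite -/
  finite : G.Finite
  /-- the set is not empty -/
  nonempty : G.Nonempty
  /-- the elements are not zero -/
  zero_notMem : (0 : K) ∉ G
  /-- the function field is `K` -/
  functionField : ∀ g ∈ G, HasFractionField (projectiveChart G g)

/-- The projective scheme `X(G)` is the blowing-up of `X(H)` in the fractional ideal generated by a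
finite set `B`: the set `G` consists of the products `h b`. -/
def IsBlowUp {K : Type} [Field K] (G H : Set K) : Prop :=
  ∃ B : Set K, B.Finite ∧ B.Nonempty ∧ (0 : K) ∉ B ∧ G = {z | ∃ h ∈ H, ∃ b ∈ B, z = h * b}

/-- The projective scheme `X(G)` is regular at the centre of the valuation ring `V`. The centre lies
in the spectra of the rings `ℤ[G / g]` which are contained in `V`. -/
def IsRegularAtCentre {K : Type} [Field K] (G : Set K) (V : ValuationSubring K) : Prop :=
  ∀ g ∈ G, (∀ g' ∈ G, g' / g ∈ V) → IsRegularLocalRing (centreRing V (projectiveChart G g))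

/-- The quadratic transform of `Q` along `V`: the local ring, at the centre of `V`, of the
blowing-up of `Spec Q` in the centre of `V`. -/
def quadraticTransform {K : Type} [Field K] (V : ValuationSubring K) (Q : Subring K) :
    Subring K :=
  centreRing V (Subring.closure ((Q : Set K) ∪ {t | ∃ y ∈ Q, ∃ z ∈ Q,
    V.valuation y < 1 ∧ z ≠ 0 ∧ V.valuation z < 1 ∧
      (∀ w ∈ Q, V.valuation w < 1 → V.valuation w ≤ V.valuation z) ∧ t = y / z}))

/-- The sequence of quadratic transforms of the local ring of `Spec A` at the centre of `V`. -/
def quadraticSequence {K : Type} [Field K] (V : ValuationSubring K) (A : Subring K) :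
    ℕ → Subring K
  | 0 => centreRing V A
  | n + 1 => quadraticTransform V (quadraticSequence V A n)

/-- The values of the maximal ideals in the sequence of quadratic transforms have an infinite sum:
every value of `V` is exceeded by the value of all products `z 0 * ... * z (n - 1)` of elements
`z i` of the maximal ideals of the rings of the sequence, for some `n`. -/
def IsDivergent {K : Type} [Field K] (V : ValuationSubring K) (A : Subring K) : Prop :=
  ∀ x : K, x ≠ 0 → ∃ n : ℕ, ∀ z : ℕ → K,
    (∀ i < n, z i ∈ quadraticSequence V A i ∧ z i ≠ 0 ∧ V.valuation (z i) < 1) →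
      V.valuation (∏ i ∈ Finset.range n, z i) < V.valuation x

/-- The value group of `v` has the rational rank `r`: there are `r` nonzero elements of `K` with
independent values, and every value has a power which is a product of powers of their values. -/
def HasRationalRank {K : Type} [Field K] (v : Valuation K ℝ≥0) (r : ℕ) : Prop :=
  ∃ x : Fin r → K, (∀ i, x i ≠ 0) ∧ (∀ m : Fin r → ℤ, ∏ i, v (x i) ^ m i = 1 → m = 0) ∧
    ∀ z : K, z ≠ 0 → ∃ n : ℕ, n ≠ 0 ∧ ∃ m : Fin r → ℤ, v z ^ n = ∏ i, v (x i) ^ m i

/-- The homomorphism from the ground field `k` to the residue field of a valuation `v` of `K` which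
is trivial on `k`. -/
noncomputable def residueMap {k K : Type} [Field k] [Field K] [Algebra k K]
    (v : Valuation K ℝ≥0) (hk : ∀ c : k, c ≠ 0 → v (algebraMap k K c) = 1) :
    k →+* ResidueField v.valuationSubring :=
  (residue v.valuationSubring).comp
    ((algebraMap k K).codRestrict v.valuationSubring.toSubring
      (Pool.Agent.H893.DD.kV_mem v hk))

/-- The residue field of `v` as an extension field of the ground field `k`. -/
noncomputable abbrev residueAlgebra {k K : Type} [Field k] [Field K] [Algebra k K]
    (v : Valuation K ℝ≥0) (hk : ∀ c : k, c ≠ 0 → v (algebraMap k K c) = 1) :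
    Algebra k (ResidueField v.valuationSubring) :=
  (residueMap v hk).toAlgebra

/-- The valuation ring `V` of the finitely generated field `K` of characteristic `p > 0` is nearly
Abhyankar: it is the valuation ring of a valuation `v` of rank one (which is automatically trivial
on the prime field `ZMod p`), which has the rational rank `r ≥ 1`, and whose deficiency
`tr.deg(K) - tr.deg(κ(v)) - r` is zero (the case of equality in the Abhyankar inequality) or one. If
it is one, the residue field `κ(v)` is finitely generated, and infinite if `r = 1`. -/
def IsNearlyAbhyankar {K : Type} [Field K] (V : ValuationSubring K) : Prop :=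
  ∃ (p : ℕ) (_ : Fact p.Prime) (_ : Algebra (ZMod p) K) (v : Valuation K ℝ≥0)
    (hk : ∀ c : ZMod p, c ≠ 0 → v (algebraMap (ZMod p) K c) = 1) (r : ℕ),
    Algebra.EssFiniteType (ZMod p) K ∧ V = v.valuationSubring ∧ 1 ≤ r ∧ HasRationalRank v r ∧
    (letI := residueAlgebra v hk
     Algebra.trdeg (ZMod p) K =
        Algebra.trdeg (ZMod p) (ResidueField v.valuationSubring) + (r : Cardinal) ∨
      (Algebra.trdeg (ZMod p) K =
          Algebra.trdeg (ZMod p) (ResidueField v.valuationSubring) + ((r + 1 : ℕ) : Cardinal) ∧
        Algebra.EssFiniteType (ZMod p) (ResidueField v.valuationSubring) ∧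
        (r = 1 → Infinite (ResidueField v.valuationSubring))))

/-- The valuation ring `V` of the finitely generated field `K` of characteristic `p > 0` is ruled of
deficiency two: it is the valuation ring of a valuation `v` of rank one, and `K = E(t)` for a
finitely generated subfield `E`, such that `tr.deg(K) = r + s + 2` and `tr.deg(E) = r + s + 1`,
where `s` is the transcendence degree of the residue field `κ(v)` and `r ≥ 2` is the rational rank
of `v` and of its restriction to `E`: there are `x i ∈ E`, `i < r`, with independent values, and
every value of `K` has a power which is a product of powers of their values. Moreover, `κ(v)` is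
finitely generated, and `E` contains lifts of the elements of a separating transcendence basis of
`κ(v)`. -/
def IsRuledOfDeficiencyTwo {K : Type} [Field K] (V : ValuationSubring K) : Prop :=
  ∃ (p : ℕ) (_ : Fact p.Prime) (_ : Algebra (ZMod p) K) (v : Valuation K ℝ≥0)
    (hk : ∀ c : ZMod p, c ≠ 0 → v (algebraMap (ZMod p) K c) = 1)
    (E : IntermediateField (ZMod p) K) (t : K) (r : ℕ) (x : Fin r → E),
    Algebra.EssFiniteType (ZMod p) K ∧ V = v.valuationSubring ∧ Algebra.EssFiniteType (ZMod p) E ∧
    E ⊔ IntermediateField.adjoin (ZMod p) {t} = ⊤ ∧ 2 ≤ r ∧ (∀ i, x i ≠ 0) ∧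
    (∀ m : Fin r → ℤ, ∏ i, v (x i : K) ^ m i = 1 → m = 0) ∧
    (∀ z : K, z ≠ 0 → ∃ n : ℕ, n ≠ 0 ∧ ∃ m : Fin r → ℤ, v z ^ n = ∏ i, v (x i : K) ^ m i) ∧
    (letI := residueAlgebra v hk
     Algebra.EssFiniteType (ZMod p) (ResidueField v.valuationSubring) ∧
      (∃ s : Finset (ResidueField v.valuationSubring),
        IsTranscendenceBasis (ZMod p) ((↑) : s → ResidueField v.valuationSubring) ∧
        Algebra.IsSeparable
          (IntermediateField.adjoin (ZMod p) (s : Set (ResidueField v.valuationSubring)))
          (ResidueField v.valuationSubring) ∧
        ∀ i ∈ s, ∃ y : v.valuationSubring, (y : K) ∈ E ∧ residue v.valuationSubring y = i) ∧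
      Algebra.trdeg (ZMod p) E =
        Algebra.trdeg (ZMod p) (ResidueField v.valuationSubring) + ((r + 1 : ℕ) : Cardinal) ∧
      Algebra.trdeg (ZMod p) K =
        Algebra.trdeg (ZMod p) (ResidueField v.valuationSubring) + ((r + 2 : ℕ) : Cardinal))

/-- `V` is the composite of the valuation ring `V₁` and the valuation ring `W` of its residue
field. -/
def IsComposite {K : Type} [Field K] (V V₁ : ValuationSubring K)
    (W : ValuationSubring (ResidueField V₁)) : Prop :=
  ∀ z : K, z ∈ V ↔ ∃ hz : z ∈ V₁, residue V₁ ⟨z, hz⟩ ∈ W

section key

open Polynomial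

variable {K : Type} [Field K] (V : ValuationSubring K) {L : Subfield K} (θ : K)

/-- The monic polynomial `ϕ` over `L` of positive degree is a key polynomial for the valuation
`f ↦ |f(θ)|` of polynomials: if `f` and `g` are nonzero polynomials of smaller degree and
`f g = q ϕ + r` with `deg r < deg ϕ`, then `|q(θ) ϕ(θ)| < |f(θ) g(θ)|`. -/
def IsKey (ϕ : L[X]) : Prop :=
  ϕ.Monic ∧ 0 < ϕ.natDegree ∧ ∀ f g : L[X], f.degree < ϕ.degree → g.degree < ϕ.degree →
    f ≠ 0 → g ≠ 0 → V.valuation (aeval θ (f * g /ₘ ϕ * ϕ)) < V.valuation (aeval θ (f * g))

/-- The polynomials of degree less than the degree of `ϕ` have an orthogonal basis over `L` with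
respect to the valuation `f ↦ |f(θ)|`. -/
def IsDefectless (ϕ : L[X]) : Prop :=
  ∃ (n : ℕ) (β : Fin n → L[X]), (∀ i, (β i).degree < ϕ.degree ∧ β i ≠ 0) ∧
    (∀ f : L[X], f.degree < ϕ.degree → ∃ c : Fin n → L, f = ∑ i, C (c i) * β i) ∧
    ∀ (c : Fin n → L) (i : Fin n), V.valuation (aeval θ (C (c i) * β i)) ≤
      V.valuation (aeval θ (∑ j, C (c j) * β j))

/-- The value of `f(θ)` is determined by `ϕ`: in the `ϕ`-adic expansion `f = ∑ f_k ϕ ^ k` with
`deg f_k < deg ϕ` the value of no term at `θ` is greater than the value of `f(θ)`. -/
def IsDetermined (ϕ f : L[X]) : Prop :=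
  ∃ (N : ℕ) (d : ℕ → L[X]), (∀ k, (d k).degree < ϕ.degree) ∧
    f = ∑ k ∈ Finset.range N, d k * ϕ ^ k ∧
    ∀ k < N, V.valuation (aeval θ (d k * ϕ ^ k)) ≤ V.valuation (aeval θ f)

end key

open Polynomial in
/-- The extension `L ⊆ L'` of subfields of `K` is finite and has no defect with respect to the
valuation ring `V` of `K`: for some valuation ring `W` over `V` of some extension field `M` of `K`
(for example the henselization), some root `ζ ∈ M` of a monic polynomial `f` over `V ∩ L` with
`|f'(ζ)| = 1`, and some nonzero elements `β i` of `L'`, the field `L'` is contained in the sum of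
the lines `L(ζ) β i`, and the `β i` are orthogonal over `L(ζ) = L[ζ]`. -/
def IsFiniteWithoutDefect {K : Type} [Field K] (V : ValuationSubring K) (L L' : Subfield K) :
    Prop :=
  L ≤ L' ∧ ∃ (M : Type) (_ : Field M) (_ : Algebra K M) (W : ValuationSubring M) (ζ : M)
    (f : L[X]) (n : ℕ) (β : Fin n → K), W.comap (algebraMap K M) = V ∧ f.Monic ∧
    (∀ i, (f.coeff i : K) ∈ V) ∧ eval₂ ((algebraMap K M).comp L.subtype) ζ f = 0 ∧
    W.valuation (eval₂ ((algebraMap K M).comp L.subtype) ζ (derivative f)) = 1 ∧
    (∀ i, β i ∈ L' ∧ β i ≠ 0) ∧
    (∀ z ∈ L', ∃ c : Fin n → L[X], algebraMap K M z =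
      ∑ i, eval₂ ((algebraMap K M).comp L.subtype) ζ (c i) * algebraMap K M (β i)) ∧
    ∀ (c : Fin n → L[X]) (i : Fin n),
      W.valuation (eval₂ ((algebraMap K M).comp L.subtype) ζ (c i) * algebraMap K M (β i)) ≤
        W.valuation (∑ j, eval₂ ((algebraMap K M).comp L.subtype) ζ (c j) * algebraMap K M (β j))

open Polynomial in
/-- The subfields `L` of `K` which are reached from the field `E` by a tower of steps without
defect with respect to the valuation ring `V` of `K`. -/
inductive Tower (E : Type) {K : Type} [Field E] [Field K] [Algebra E K]
    (V : ValuationSubring K) : Subfield K → Prop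
  /-- The tower starts with (the image of) `E`. -/
  | base : Tower E V (algebraMap E K).fieldRange
  /-- The step from `L` to `L(t)`, where `t` is transcendental and the value of every polynomial in
  `t` is determined by a defectless key polynomial. -/
  | transcendental (L : Subfield K) (t : K) : Tower E V L → Transcendental L t →
    (∀ f : L[X], ∃ ϕ : L[X], IsKey V t ϕ ∧ IsDefectless V t ϕ ∧ IsDetermined V t ϕ f) →
    Tower E V (L ⊔ Subfield.closure {t})
  /-- The step from `L` to a finite extension `L'` without defect. -/
  | finite (L L' : Subfield K) : Tower E V L → IsFiniteWithoutDefect V L L' → Tower E V L'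

/-- The valuation ring `V` of the field `L` has rank one: it is a maximal proper subring which is a
valuation ring. -/
def IsRankOne {L : Type} [Field L] (V : ValuationSubring L) : Prop :=
  V ≠ ⊤ ∧ ∀ U : ValuationSubring L, V < U → U = ⊤

/-- The rational rank of `V` is finite: there are finitely many nonzero elements `γ i` of the
subfield `F` such that every value has a power which is the value of a product of powers of the
`γ i`. -/
def HasFiniteRationalRank (F : Type) {L : Type} [Field F] [Field L] [Algebra F L]
    (V : ValuationSubring L) : Prop :=
  ∃ (r : ℕ) (γ : Fin r → F), (∀ i, γ i ≠ 0) ∧ ∀ z : L, z ≠ 0 → ∃ n : ℕ, 0 < n ∧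
    ∃ m : Fin r → ℤ, V.valuation z ^ n = V.valuation (algebraMap F L (∏ i, γ i ^ m i))

open Polynomial in
/-- The extension `L = F(ζ)` of `F` lies in the henselization of `F` with respect to `V ∩ F`: the
minimal polynomial `h` of `ζ` over `F` has coefficients in `V`, its derivative satisfies
`|h'(ζ)| = 1`, and `|ζ - a| < 1` for some `a ∈ F`. -/
def IsInHenselization (F : Type) {L : Type} [Field F] [Field L] [Algebra F L]
    (V : ValuationSubring L) : Prop :=
  ∃ (ζ : L) (a : F), (∀ z : L, ∃ f : F[X], aeval ζ f = z) ∧
    (∀ i, algebraMap F L ((minpoly F ζ).coeff i) ∈ V) ∧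
    V.valuation (aeval ζ (derivative (minpoly F ζ))) = 1 ∧
    V.valuation (ζ - algebraMap F L a) < 1

/-- The smallest class of valuation rings which contains the discrete and divergent ones, the known
ones, the nearly Abhyankar ones and the ruled ones of deficiency two, and which is closed under
composition, towers without defect and henselian descent. -/
inductive Admissible : ∀ {K : Type} [Field K], ValuationSubring K → Prop
  /-- The trivial valuation rings. -/
  | trivial {K : Type} [Field K] : Admissible (⊤ : ValuationSubring K)
  /-- The discrete valuation rings of rank one, and the valuation rings with divergent sequences of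
  quadratic transforms of all rings of finite type over the integers. -/
  | divergent {K : Type} [Field K] (V : ValuationSubring K) :
    (IsDiscreteValuationRing V ∨ ∀ T : Set K, T.Finite → Subring.closure T ≤ V.toSubring →
      IsDivergent V (Subring.closure T)) → Admissible V
  /-- The valuation rings of a finitely generated field which are log uniformizable on the spectra
  of all rings of finite type over the integers with this fraction field. -/
  | known {K : Type} [Field K] (V : ValuationSubring K) : IsFinitelyGenerated K →
    (∀ T : Set K, T.Finite → Subring.closure T ≤ V.toSubring →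
      HasFractionField (Subring.closure T) → IsLogUniformizable V (Subring.closure T)) →
    Admissible V
  /-- The nearly Abhyankar valuation rings. -/
  | nearlyAbhyankar {K : Type} [Field K] (V : ValuationSubring K) :
    IsNearlyAbhyankar V → Admissible V
  /-- The ruled valuation rings of deficiency two. -/
  | ruled {K : Type} [Field K] (V : ValuationSubring K) : IsRuledOfDeficiencyTwo V → Admissible V
  /-- The composites of a valuation ring `V₁` and a valuation ring `W` of its residue field. -/
  | composite {K : Type} [Field K] (V V₁ : ValuationSubring K)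
    (W : ValuationSubring (ResidueField V₁)) :
    IsComposite V V₁ W → Admissible V₁ → Admissible W → Admissible V
  /-- The valuation rings of a field `K` which is reached by a tower without defect from a finitely
  generated field `E` whose valuation ring is in the class. -/
  | tower {E K : Type} [Field E] [Field K] [Algebra E K] (V : ValuationSubring K) :
    IsFinitelyGenerated E → Admissible (V.comap (algebraMap E K)) → Tower E V ⊤ → Admissible V
  /-- Henselian descent: the valuation rings `V ∩ F` of a finitely generated field `F`, where `V` is
  a valuation ring of rank one in the class of a finite extension of `F` in the henselization. -/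
  | descent {F L : Type} [Field F] [Field L] [Algebra F L] (V : ValuationSubring L) :
    IsFinitelyGenerated F → IsRankOne V → HasFiniteRationalRank F V → IsInHenselization F V →
    Admissible V → Admissible (V.comap (algebraMap F L))

lemma quadraticSequence_eq {K : Type} [Field K] (V : ValuationSubring K) (A : Subring K) :
    quadraticSequence V A = qseq V A := by
  funext n
  induction n with
  | zero => rfl
  | succ n ih =>
    change quadraticTransform V (quadraticSequence V A n) = qt V.toSubring (qseq V A n)
    rw [ih, qt_val]
    rfl

lemma IsDivergent.dv {K : Type} [Field K] {V : ValuationSubring K} {A : Subring K}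
    (h : IsDivergent V A) : Dv V (qseq V A) := by
  rw [← quadraticSequence_eq]
  exact dv_of_lt h

/-- The steps of a tower. -/
lemma Tower.inv {E K : Type} [Field E] [Field K] [Algebra E K] {V : ValuationSubring K}
    {R' : Subring K} (h0 : Pool.Agent.H176.DT.Inv V R' (algebraMap E K).fieldRange.subtype)
    {L : Subfield K} (hL : Tower E V L) : Pool.Agent.H176.DT.Inv V R' L.subtype := by
  have kp : ∀ {L : Subfield K} {θ : K} {ϕ : Polynomial L}, IsKey V θ ϕ → IsDefectless V θ ϕ →
      ∃ (n : ℕ) (β : Fin n → Polynomial L), Pool.Agent.H176.DT.KP V θ ϕ β := by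
    rintro L θ ϕ ⟨h1, h2, h3⟩ ⟨n, β, h4, h5, h6⟩
    exact ⟨n, β, h1, h2, fun i => (h4 i).1, fun i => (h4 i).2, h5, h6, h3⟩
  induction hL with
  | base => exact h0
  | transcendental L t _ ht hdom ih =>
    refine Pool.Agent.H176.DT.sub_trans V _ t ht (fun f => ?_) ih
    obtain ⟨ϕ, h1, h2, N, d, h3, h4, h5⟩ := hdom f
    obtain ⟨n, β, h6⟩ := kp h1 h2
    exact ⟨ϕ, n, β, h6, N, d, ⟨h3, h4⟩, h5⟩
  | finite L L' _ hnd ih => exact Pool.Agent.H176.DT.sub_nd V _ hnd.1 hnd.2 ih

lemma adj_eq {K : Type} [Field K] (T : Set K) :
    Subring.closure (((Int.castRingHom K).range : Set K) ∪ T) = Subring.closure T := by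
  refine le_antisymm ?_ (Subring.closure_mono Set.subset_union_right)
  rw [Subring.closure_le]
  rintro z (⟨n, rfl⟩ | hz)
  · exact intCast_mem _ n
  · exact Subring.subset_closure hz

lemma zmod_frac (p : ℕ) [Fact p.Prime] (c : ZMod p) :
    ∃ a b : ℤ, Int.castRingHom (ZMod p) b ≠ 0 ∧
      c = Int.castRingHom (ZMod p) a / Int.castRingHom (ZMod p) b := by
  obtain ⟨a, ha⟩ := ZMod.intCast_surjective c
  refine ⟨a, 1, ?_, ?_⟩
  · rw [map_one]
    exact one_ne_zero
  · rw [map_one, div_one]
    exact ha.symm

lemma comp_eq {R S : Type} [Ring R] [Ring S] (f : R →+* S) :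
    f.comp (Int.castRingHom R) = Int.castRingHom S :=
  RingHom.ext_int _ _

lemma Admissible.good {K : Type} [Field K] {V : ValuationSubring K} (h : Admissible V) :
    Pool.Agent.R187.CT.Good (Int.castRingHom K) V := by
  have hR : HJ ℤ := hj_dedekind
  induction h with
  | trivial => exact Pool.Agent.R187.CT.good_top _
  | divergent V h =>
    exact Pool.Agent.R187.CT.good_dv hR _ V (h.imp_right fun h T hT hTV => by
      have h1 : Pool.Agent.R187.CT.rg (Int.castRingHom _) T = Subring.closure T := adj_eq T
      rw [h1] at hTV ⊢
      exact (h T hT hTV).dv)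
  | known V hK h =>
    obtain ⟨S, hS, hSK⟩ := hK
    refine Pool.Agent.R187.CT.good_given hR _ V ⟨S, hS, fun z => ?_⟩ fun T hT hTV hTK => ?_
    · have h1 : Pool.Agent.R187.CT.rg (Int.castRingHom _) S = Subring.closure S := adj_eq S
      rw [h1]
      exact hSK z
    · have h1 : Pool.Agent.R187.CT.rg (Int.castRingHom _) T = Subring.closure T := adj_eq T
      rw [h1] at hTV hTK ⊢
      exact h T hT hTV hTK
  | composite V V₁ W hc _ _ ih₁ ihW =>
    refine Pool.Agent.R187.CT.good_comp hR _ (fun a => intCast_mem V₁.toSubring a) hc ih₁ ?_
    have h1 : (residue V₁).comp ((Int.castRingHom _).codRestrict V₁.toSubring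
        (fun a => intCast_mem V₁.toSubring a)) = Int.castRingHom (ResidueField V₁) :=
      RingHom.ext_int _ _
    rw [h1]
    exact ihW
  | @tower E K _ _ _ V hE _ ht ih =>
    rw [← comp_eq (algebraMap E K)]
    refine Pool.Agent.R187.CT.good_tower hR _ V (fun a => ?_) ?_ ih fun R' h0 => ht.inv h0
    · have h1 : algebraMap E K (Int.castRingHom E a) = (a : K) := by simp
      rw [h1]
      exact intCast_mem V.toSubring a
    · obtain ⟨S, hS, hSK⟩ := hE
      refine ⟨S, hS, fun z => ?_⟩
      have h1 : Pool.Agent.R187.CT.rg (Int.castRingHom E) S = Subring.closure S := adj_eq S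
      rw [h1]
      exact hSK z
  | @descent F L _ _ _ V hF hr1 hrr hhens _ ih =>
    obtain ⟨ζ, a, hgen, hcoef, hder, hres⟩ := hhens
    have hint : IsIntegral F ζ := by
      by_contra h1
      rw [minpoly.eq_zero h1, Polynomial.derivative_zero, map_zero, map_zero] at hder
      exact zero_ne_one hder
    have halg : Algebra.IsAlgebraic F L := ⟨fun z => by
      obtain ⟨f, rfl⟩ := hgen z
      rw [Polynomial.aeval_eq_sum_range]
      refine (IsIntegral.sum _ fun i _ => ?_).isAlgebraic
      exact (hint.pow i).smul _⟩
    refine good_desc hR _ V (fun a => ?_) ?_ ζ hgen hcoef hder a hres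
      (Pool.Agent.H893.DD.t_arch V hr1.2) (Pool.Agent.H893.DD.t_nt V hr1.1) hrr ?_
    · have h1 : algebraMap F L (Int.castRingHom F a) = (a : L) := by simp
      rw [h1]
      exact intCast_mem V.toSubring a
    · obtain ⟨S, hS, hSK⟩ := hF
      refine ⟨S, hS, fun z => ?_⟩
      have h1 : Pool.Agent.R187.CT.rg (Int.castRingHom F) S = Subring.closure S := adj_eq S
      rw [h1]
      exact hSK z
    · rw [comp_eq (algebraMap F L)]
      exact ih
  | @nearlyAbhyankar K _ V h =>
    obtain ⟨p, hp, halg, v, hk, r, hess, rfl, hr, ⟨x, hx0, hind, hrr⟩, h⟩ := h
    have hd : Pool.Agent.H893.AB.Def1 v hk r := h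
    have hess2 := hd.ess x hx0 hind
    rw [← comp_eq (algebraMap (ZMod p) K)]
    refine Pool.Agent.H893.AB.good_ring2 p (Int.castRingHom (ZMod p)) (zmod_frac p) v hk ?_ r hr hd
      x hx0 hind hrr
    let _ := Pool.Agent.H893.DD.rAlg v hk
    have : Algebra.EssFiniteType (ZMod p) (Pool.Agent.H893.DD.Rf v) := hess2
    exact Pool.Agent.H893.DD.sepGen (ZMod p) _
  | @ruled K _ V h =>
    obtain ⟨p, hp, halg, v, hk, E, t, r, x, hess, rfl, h⟩ := h
    rw [← comp_eq (algebraMap (ZMod p) K)]
    exact Pool.Agent.H893.TW.good_rul_ring p (Int.castRingHom (ZMod p)) (zmod_frac p) v hk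
      ⟨E, t, r, x, h⟩

/-- Let `V i` be finitely many pairwise independent nontrivial valuation rings of the field `K` which
belong to the class generated by the discrete, divergent, known and nearly Abhyankar valuation rings
and the ruled ones of deficiency two under composition, towers without defect and henselian descent.

1. Every projective scheme over `ℤ` with the function field `K` has a blowing-up which is regular at
   the centres of all the `V i`.
2. Let `K` be the fraction field of a ring `A = ℤ[S]` of finite type over the integers which is
   contained in all the `V i`. Then they are simultaneously log uniformizable on `X = Spec A`: for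
   every closed subset `V(D) ≠ X` and for every blowing-up `X₀` of `X` there is a blowing-up of `X`
   which factors through `X₀`, which is a log desingularization of `(X, V(D))` along all the `V i`,
   and which is an isomorphism over `X₀` outside of the closures of the centres of the coarsenings
   of rank one of the `V i`. -/
theorem result {K : Type} [Field K] {m : ℕ} (V : Fin m → ValuationSubring K) (hV : ∀ i, V i ≠ ⊤)
    (hind : ∀ i j, i ≠ j → AreIndependent (V i) (V j)) (hC : ∀ i, Admissible (V i)) :
    (∀ H : Set K, IsProjectiveModel H →
      ∃ G : Set K, IsProjectiveModel G ∧ IsBlowUp G H ∧ ∀ i, IsRegularAtCentre G (V i)) ∧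
    ∀ S : Set K, S.Finite → HasFractionField (Subring.closure S) →
      (∀ i, Subring.closure S ≤ (V i).toSubring) →
      IsSimultaneouslyLogUniformizable V (Subring.closure S) := by
  have hN : ∀ S : Set K, S.Finite → IsNoetherianRing (Subring.closure S) := by
    intro S hS
    rw [← adj_eq S]
    exact Pool.Agent.R187.CT.noe_rg hj_dedekind _ hS
  have hSU : ∀ (i : Fin m) (S : Set K), S.Finite →
      Pool.Agent.H176.DT.Mod (V i) (Subring.closure S) →
      Pool.Agent.H176.DT.SU (V i) (Subring.closure S) := by
    intro i S hS hM
    obtain ⟨T₀, -, h⟩ := (hC i).good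
    have hN' := hN S hS
    rw [← adj_eq S] at hM hN' ⊢
    exact Pool.Agent.Q299.TD.su_of_gp hM (h S hS hM.1 fun t _ => hM.2 t)
  refine ⟨fun H hH => ?_, fun S hS hSK hSV => ?_⟩
  · obtain ⟨h, hh⟩ := hH.nonempty
    have hT : {z | ∃ g' ∈ H, z = g' / h}.Finite := by
      refine (hH.finite.image fun g' => g' / h).subset ?_
      rintro z ⟨g', hg', rfl⟩
      exact ⟨g', hg', rfl⟩
    obtain ⟨B, hB, hBn, hB0, h1⟩ := Pool.Agent.H893.SC.proj_model V hV hind _ hT
      (hH.functionField h hh) hN hSU H hH.finite hH.nonempty hH.zero_notMem
    refine ⟨Pool.Agent.H893.SC.prd H B, ⟨?_, ?_, ?_, fun g hg => (h1 g hg).1⟩,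
      ⟨B, hB, hBn, hB0, rfl⟩, fun i g hg hgV => (h1 g hg).2 i hgV⟩
    · refine (Set.Finite.image2 (fun h b => h * b) hH.finite hB).subset ?_
      rintro z ⟨h, hh, b, hb, rfl⟩
      exact ⟨h, hh, b, hb, rfl⟩
    · obtain ⟨b, hb⟩ := hBn
      exact ⟨h * b, h, hh, b, hb, rfl⟩
    · rintro ⟨h, hh, b, hb, h2⟩
      rcases mul_eq_zero.1 h2.symm with h3 | h3
      · exact hH.zero_notMem (h3 ▸ hh)
      · exact hB0 (h3 ▸ hb)
  · have hN' := hN S hS
    intro D I₀ hD hI₀
    exact Pool.Agent.H893.SC.sim_indep (Subring.closure S) V hV hind (fun i => ⟨hSV i, hSK⟩)
      (fun i => hSU i S hS ⟨hSV i, hSK⟩) D I₀ hD hI₀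

end Pool.Agent.Results.MP_4d1008_ag.ArithmeticSchemesWithDefect
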