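import Pool.Agent.H413.XT.X8
import Pool.Agent.H413.XT.X14
import Pool.Agent.H413.XT.X17
import Pool.Agent.H413.XT.X25

/-!
MP_4d1008_ag: resolution of singularities of arithmetic schemes up to quasi-compactness, in all
dimensions.

Let `X` be an integral scheme which is projective over `ℤ` and dominates `Spec ℤ` (no condition on
the fibres). There is an integral scheme `X'`, all of whose local rings are regular, with a separated
morphism `π : X' → X`, locally of finite type, such that:

* `π` is an isomorphism over the (open) set of ALL regular points of `X`, in particular birational;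
* for every discrete valuation ring `R` of characteristic zero and every morphism `ψ : Spec R → X`
  which maps the generic point to a regular point of `X` there is exactly one morphism
  `Spec R → X'` over `ψ`: so `π` satisfies the valuative criterion of properness for all traits of
  characteristic zero which are not contained in the singular locus;
* `X'` is the union of an increasing sequence of open subschemes `V 0 ⊆ V 1 ⊆ …`, each `V d` is the
  set of all regular points of an integral scheme with a proper morphism to `X` which is an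
  isomorphism over all regular points of `X`, and all traits `ψ : Spec R → X` of contact at most `d`
  with the singular locus of `X` such that `R` has absolute ramification at most `d` lift to `V d`.

If the generic fibre of `X` is regular then all traits of characteristic zero lift: every point
of `X` with values in a field `L` of characteristic zero, and every discrete valuation of `L`, has a
unique centre on the regular scheme `X'`.
-/

set_option autoImplicit false

open AlgebraicGeometry CategoryTheory CategoryTheory.Limits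

namespace Pool.Agent.Results.MP_4d1008_ag.ResolutionUpToQuasiCompactness

/-- `X` with the morphism `f` to `Spec ℤ` is projective: it is `Proj` of a graded ring whose degree
zero part consists of integers, generated by finitely many elements of degree one. -/
def IsProjectiveOver {X : Scheme.{0}} (f : X ⟶ Spec (CommRingCat.of ℤ)) : Prop :=
  ∃ (A : Type) (_ : CommRing A) (𝒜 : ℕ → Submodule ℤ A) (_ : GradedAlgebra 𝒜),
    (∀ a ∈ 𝒜 0, ∃ q : ℤ, algebraMap ℤ A q = a) ∧
    (∃ s : Finset A, (∀ a ∈ s, a ∈ 𝒜 1) ∧ Algebra.adjoin ℤ (s : Set A) = ⊤) ∧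
    ∃ i : X ≅ Proj 𝒜,
      i.hom ≫ Proj.toSpecZero 𝒜 ≫ Spec.map (CommRingCat.ofHom (algebraMap ℤ (𝒜 0))) = f

/-- The local ring of the scheme `X` at the point `x` is regular. -/
def IsRegularAt (X : Scheme.{0}) (x : X) : Prop := IsRegularLocalRing (X.presheaf.stalk x)

/-- The set of regular points of `X` is open and `π` is an isomorphism over it. -/
def IsIsoOverRegularPoints {X' X : Scheme.{0}} (π : X' ⟶ X) : Prop :=
  ∃ U : X.Opens, (∀ x, x ∈ U ↔ IsRegularAt X x) ∧ IsIso (π ∣_ U)

/-- The contact of the trait `ψ` with the set of singular points of `X` is at most `d`: some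
function `s` on an open set `U`, which contains the image of the trait, vanishes at all singular
points in `U` and has order at most `d` on the trait. -/
def HasContactAtMost {X : Scheme.{0}} {R : Type} [CommRing R] [IsLocalRing R]
    (ψ : Spec (CommRingCat.of R) ⟶ X) (d : ℕ) : Prop :=
  ∃ (U : X.Opens) (h : ⊤ ≤ ψ ⁻¹ᵁ U) (s : Γ(X, U)),
    (∀ x ∈ U, ¬ IsRegularAt X x → x ∉ X.basicOpen s) ∧
    (Scheme.ΓSpecIso (CommRingCat.of R)).hom ((ψ.appLE U ⊤ h) s) ∉
      IsLocalRing.maximalIdeal R ^ (d + 1)

/-- The absolute ramification of the local ring `R` is at most `d`: no prime number is in the power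
`d + 1` of the maximal ideal. -/
def HasRamificationAtMost (R : Type) [CommRing R] [IsLocalRing R] (d : ℕ) : Prop :=
  ∀ p : ℕ, p.Prime → (p : R) ∉ IsLocalRing.maximalIdeal R ^ (d + 1)

/-- The open subscheme `V` of `X'` is, over `X`, the set of all regular points of an integral
scheme `Y` with a proper morphism `b : Y → X` which is an isomorphism over all regular points
of `X`. -/
def IsRegularLocusOfModification {X' X : Scheme.{0}} (π : X' ⟶ X) (V : X'.Opens) : Prop :=
  ∃ (Y : Scheme.{0}) (b : Y ⟶ X) (j : V.toScheme ⟶ Y), IsIntegral Y ∧ IsProper b ∧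
    IsIsoOverRegularPoints b ∧ IsOpenImmersion j ∧ (∀ y, y ∈ Set.range j ↔ IsRegularAt Y y) ∧
    j ≫ b = V.ι ≫ π

/-- The absolute ramification of a discrete valuation ring of characteristic zero is finite. -/
theorem exists_ramification (R : Type) [CommRing R] [IsDomain R] [IsDiscreteValuationRing R]
    [CharZero R] : ∃ d, HasRamificationAtMost R d := by
  classical
  by_cases h : ∃ p : ℕ, p.Prime ∧ (p : R) ∈ IsLocalRing.maximalIdeal R
  · obtain ⟨p, hp, hpm⟩ := h
    have hp0 : (p : R) ≠ 0 := Nat.cast_ne_zero.2 hp.ne_zero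
    have h1 : ∃ n, (p : R) ∉ IsLocalRing.maximalIdeal R ^ n := by
      by_contra hcon
      push Not at hcon
      have h2 : (p : R) ∈ (⨅ n : ℕ, IsLocalRing.maximalIdeal R ^ n) := by
        rw [Submodule.mem_iInf]
        exact hcon
      rw [Ideal.iInf_pow_eq_bot_of_isLocalRing _ (IsLocalRing.maximalIdeal.isMaximal R).ne_top]
        at h2
      exact hp0 ((Submodule.mem_bot R).1 h2)
    obtain ⟨n, hn⟩ := h1
    refine ⟨n, fun q hq hqn => ?_⟩
    by_cases hpq : p = q
    · subst hpq
      exact hn (Ideal.pow_le_pow_right (Nat.le_succ n) hqn)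
    · have hqm : (q : R) ∈ IsLocalRing.maximalIdeal R :=
        Ideal.pow_le_self (Nat.succ_ne_zero n) hqn
      have hco : IsCoprime (p : ℤ) (q : ℤ) :=
        Nat.isCoprime_iff_coprime.2 ((Nat.coprime_primes hp hq).2 hpq)
      obtain ⟨a, b, hab⟩ := hco
      have h3 : (1 : R) ∈ IsLocalRing.maximalIdeal R := by
        have h4 : (1 : R) = (a : R) * (p : R) + (b : R) * (q : R) := by
          have := congrArg (Int.cast : ℤ → R) hab
          push_cast at this
          exact this.symm
        rw [h4]
        exact Ideal.add_mem _ (Ideal.mul_mem_left _ _ hpm) (Ideal.mul_mem_left _ _ hqm)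
      exact (IsLocalRing.maximalIdeal.isMaximal R).ne_top ((Ideal.eq_top_iff_one _).2 h3)
  · push Not at h
    exact ⟨0, fun p hp hpm => h p hp (by rwa [zero_add, pow_one] at hpm)⟩

/-- Let `X` be an integral projective scheme over `ℤ` which dominates `Spec ℤ`. There is an integral
regular scheme `X'` with a separated morphism `π : X' → X`, locally of finite type, which is an
isomorphism over the set of all regular points of `X`, such that for all discrete valuation rings
`R` of characteristic zero every `ψ : Spec R → X` which maps the generic point to a regular point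
lifts uniquely to `X'`. Moreover, `X'` is the union of increasing open subschemes `V d`, which are
the regular loci of integral schemes proper over `X`, such that all traits `Spec R → X` of contact
at most `d` with the singular locus of `X`, with `R` of absolute ramification at most `d`, lift to
`V d`. -/
theorem result (X : Scheme.{0}) [IsIntegral X] (f : X ⟶ Spec (CommRingCat.of ℤ))
    (hX : IsProjectiveOver f) (hdom : IsDominant f) :
    ∃ (X' : Scheme.{0}) (π : X' ⟶ X), IsIntegral X' ∧ (∀ x, IsRegularAt X' x) ∧
      IsSeparated π ∧ LocallyOfFiniteType π ∧ IsIsoOverRegularPoints π ∧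
      (∀ (R : Type) [CommRing R] [IsDomain R] [IsDiscreteValuationRing R] [CharZero R]
        (ψ : Spec (CommRingCat.of R) ⟶ X), IsRegularAt X (ψ (⊥ : PrimeSpectrum R)) →
        ∃! ψ' : Spec (CommRingCat.of R) ⟶ X', ψ' ≫ π = ψ) ∧
      ∃ V : ℕ → X'.Opens, Monotone V ∧ (∀ x, ∃ d, x ∈ V d) ∧
        (∀ d, IsRegularLocusOfModification π (V d)) ∧
        ∀ (d : ℕ) (R : Type) [CommRing R] [IsDomain R] [IsDiscreteValuationRing R]
          (ψ : Spec (CommRingCat.of R) ⟶ X), HasContactAtMost ψ d → HasRamificationAtMost R d →
          ∃ ψ' : Spec (CommRingCat.of R) ⟶ X', ψ' ≫ π = ψ ∧ Set.range ψ' ⊆ (V d : Set X') := by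
  obtain ⟨A, _, 𝒜, _, h0, ⟨s, hs, hgen⟩, i, hif⟩ := hX
  obtain ⟨F, _, iF, M, g, hg, hg0, e, hM, he, hinj⟩ :=
    Pool.Agent.H413.XT.h413_proj_model 𝒜 f h0 s hs hgen i hif
  have hinj := hinj hdom
  obtain rfl : iF = Ring.toIntAlgebra F := Subsingleton.elim _ _
  have hF : CharZero F := by
    refine charZero_of_inj_zero fun n hn => ?_
    have h1 : algebraMap ℤ F (n : ℤ) = algebraMap ℤ F 0 := by
      rw [map_zero, map_natCast]
      exact hn
    exact_mod_cast hinj h1
  have hHJ : Pool.Agent.TH188.QS.HJ ℤ := Pool.Agent.TH188.QS.hj_dedekind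
  have hSR : Pool.Agent.H413.BR.SR ℤ F := Pool.Agent.H413.BR.sr_hj hHJ
  obtain ⟨D, N, hNfin, hN, hNreg⟩ :=
    Pool.Agent.H413.XT.h413_exists_forms hHJ hSR hM ⟨g, hg, hg0⟩
  obtain ⟨K, hK, hiso, hlift⟩ := Pool.Agent.H413.XT.h413_seq_intZ M hM ⟨g, hg, hg0⟩ D N hNfin hN
    (fun g hg hg0 P _ h => (hNreg g hg hg0 P).1 h)
  obtain ⟨X', π, h1, h2, h3, h4, h5, h6, V, h7, h8, h9, h10⟩ :=
    Pool.Agent.H413.XT.h413_final_gen hinj hHJ hSR hM e g hg hg0 hNfin hN hNreg
      hK hiso (fun d R _ _ => HasRamificationAtMost R d)
      (fun R _ _ d d' hdd h p hp hpm =>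
        h p hp (Ideal.pow_le_pow_right (Nat.succ_le_succ hdd) hpm))
      (fun d g hg hg0 R _ _ _ γ h h' => hlift d g hg hg0 R γ h h')
  obtain ⟨U, hU, hUiso⟩ := h5
  have hp : IsProper f := by
    have := Pool.Agent.H968R2.Quad.modelMap_isProper M hinj hM
    rw [← he]
    infer_instance
  obtain ⟨d₀, hd₀⟩ := Pool.Agent.H413.XT.upgrade (Pool.Agent.H413.XT.all_compact f) π U hU hUiso
    V h7 h8 h9
  refine ⟨X', π, h1, h2, h3, h4, ⟨U, hU, hUiso⟩,
    fun R _ _ _ _ ψ hψ => h6 R ψ (exists_ramification R) hψ,
    fun d => V (d + d₀), fun a b hab => h7 (Nat.add_le_add_right hab d₀), fun x => ?_,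
    fun d => hd₀ _ (Nat.le_add_left d₀ d), fun d R _ _ _ ψ hψ hR => ?_⟩
  · obtain ⟨d, hd⟩ := h8 x
    exact ⟨d, h7 (Nat.le_add_right d d₀) hd⟩
  · obtain ⟨ψ', e1, e2⟩ := h10 d R ψ hψ hR
    exact ⟨ψ', e1, fun x hx => h7 (Nat.le_add_right d d₀) (e2 hx)⟩

end Pool.Agent.Results.MP_4d1008_ag.ResolutionUpToQuasiCompactness
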