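import Pool.Agent.H865.TS.Mn1

/-!
MP_4d1008_ag: regular proper models over the integers of the varieties over number fields with an
action of a (tamely split) torus of complexity at most one, and of fibrations in torsors over
function fields of arithmetic surfaces, in every dimension.

Let `E` be a number field, let `M` be a Galois extension of `E` in which all ramification is tame, and
let `T` be an algebraic torus over `E` which splits over `M`. Let `V` be a variety over `E` with a
generically free action of `T` such that `dim V ≤ dim T + 1`. The field `κ` of invariant rational
functions has transcendence degree at most one over `E`, the function field of `V` is the function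
field of a torsor of `T` over `κ`, and this torsor is trivial over `κM` (Hilbert 90): so the function
field over `M` is the rational function field over `κM` in the coordinates `u j` of the torus, and the
Galois group maps `u j` to a monomial in the variables `u` with a coefficient in `κM`. This is the
case `n = 0` of the theorem. Examples: the varieties `N_{M/E} (z) = f (t)` for any polynomial `f`, or
`N_i (z_i) = f_i` for any functions `f_i` on a curve.

In the general case the base is not the curve, but the complement of hyperplanes in the affine space
with the coordinates `y i` over `κ`: families of hyperplane arrangements over an arithmetic surface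
which may degenerate arbitrarily.

By the theorem of Lipman each `κ` of transcendence degree at most one over `E` has a regular
projective model over the ring of integers; this theorem is not used: the model is a hypothesis.

The proof: (1) log resolution over arithmetic surfaces and for families of linear forms over them, from
the library (`AdmissibleTowers`): there is a log regular model over `𝓞 E` on which finitely many
functions are boundary functions. (2) NEW: the base change of a log regular model to the ring of
integers of a tame extension is not regular, but toroidal (`IQ`, `RG2`, `Core`): locally the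
boundary functions form the faces of a lattice, and a uniformizer of `𝓞 M` is adjoined to the lattice
of a stratum over the ramified prime (the ramification index is invertible, so that the sublattice
which is adjoined does not produce singularities). (3) NEW: the global toroidal modification. The
values of all points of the base change under the order functions are the points of a conical
complex (`StA`, `StB`, `StC`, `Pr`); with a Galois stable smooth polytope for the lattice of the
characters of the whole torus (`Bd`, `Ex`) the Laurent monomials with the coefficients which are
integral at all strata generate an `𝓞 M`-module `MM` whose charts are regular (`Md`, `Cx`, `Cz`,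
`Cw`). (4) `MM` is Galois stable, so the library theorem on quotients with tame inertia of regular
schemes with linear action applies (`Mn0`).
-/

set_option autoImplicit false

open AlgebraicGeometry CategoryTheory CategoryTheory.Limits

open scoped NumberField

namespace Pool.Agent.Results.MP_4d1008_ag.TorusActions

/-- The inertia group of the ideal `𝔓` of the ring of integers of `M`: the automorphisms of `M` over
`E` which act trivially modulo `𝔓`. -/
def inertiaGroup (E : Type) {M : Type} [Field E] [Field M] [Algebra E M] (𝔓 : Ideal (𝓞 M)) :
    Set (M ≃ₐ[E] M) :=
  {g | ∀ o : 𝓞 M, ∃ e ∈ 𝔓, (e : M) = g o - o}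

/-- All ramification of `M` over `E` is tame: the order of the inertia group of every maximal ideal
(the ramification index) is not divisible by the residue characteristic. -/
def IsTame (E M : Type) [Field E] [Field M] [Algebra E M] : Prop :=
  ∀ 𝔓 : Ideal (𝓞 M), 𝔓.IsMaximal → ∀ r : ℕ, r.Prime → (r : 𝓞 M) ∈ 𝔓 →
    ¬ r ∣ Nat.card (inertiaGroup E 𝔓)

/-- The ring `𝓞[H 0 / H i, ..., H m / H i]`, where `𝓞` is the ring of integers of `E`: the chart
`H i ≠ 0` of the integral projective scheme over `𝓞` with the homogeneous coordinates `H`. -/
noncomputable def chart (E : Type) {κ : Type} [Field E] [Field κ] [Algebra E κ]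
    {m : ℕ} (H : Fin (m + 1) → κ) (i : Fin (m + 1)) : Subalgebra (𝓞 E) κ :=
  Algebra.adjoin (𝓞 E) (Set.range fun j => H j / H i)

/-- The homogeneous coordinates `H` define a regular projective scheme over the ring of integers of
the number field `E` with the function field `κ`, where `κ` has transcendence degree at most one
over `E`, and `E` is algebraically closed in `κ`. -/
structure IsRegularModel (E : Type) {κ : Type} [Field E] [Field κ] [Algebra E κ] {m : ℕ}
    (H : Fin (m + 1) → κ) : Prop where
  ne_zero : ∀ i, H i ≠ 0
  generate : IntermediateField.adjoin E (Set.range fun j => H j / H 0) = ⊤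
  trdeg : Algebra.trdeg E κ ≤ 1
  closed : ∀ a : κ, IsAlgebraic E a → ∃ e : E, algebraMap E κ e = a
  regular : ∀ i (𝔭 : Ideal (chart E H i)) [𝔭.IsPrime],
    IsRegularLocalRing (Localization.AtPrime 𝔭)

/-- The multiplicative group generated by the elements `u j`, by all nonzero elements of `K` which are
algebraic over `κ`, and by all nonzero polynomials of degree at most one in the `y i` over `κ`. -/
def monomialGroup (κ : Type) {K : Type} [Field κ] [Field K] [Algebra κ K] {n s : ℕ}
    (y : Fin n → K) (u : Fin s → K) : Subgroup Kˣ :=
  Subgroup.closure {z | IsAlgebraic κ (z : K) ∨ (∃ (c₀ : κ) (c : Fin n → κ),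
    (z : K) = algebraMap κ K c₀ + ∑ i, algebraMap κ K (c i) * y i) ∨ ∃ j, (z : K) = u j}

/-- `K` is the function field over `M` of a torsor of a torus over the complement of hyperplanes of
the affine space over `κ`: it is the rational function field over the compositum of `κ` and `M` in
the variables `y i` (the coordinates of the affine space) and `u j` (the coordinates of the torus);
the Galois group of `M` over `E` acts on `K` (by `ρ`) semilinearly, fixes the elements of `κ` and the
`y i`, and maps the `u j` to products of powers of the variables `u`, of elements algebraic over `κ`,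
and of polynomials of degree at most one in the `y i` over `κ`. -/
structure IsTorsorFunctionField (κ : Type) {E M K : Type} [Field κ] [Field E] [Field M]
    [Algebra E M] [Field K] [Algebra M K] [Algebra E K] [Algebra κ K] {n s : ℕ}
    (ρ : (M ≃ₐ[E] M) →* (K ≃ₐ[E] K)) (y : Fin n → K) (u : Fin s → K) : Prop where
  algebraicIndependent : AlgebraicIndependent κ (Sum.elim y u)
  generates : IntermediateField.adjoin κ
    (Set.range (algebraMap M K) ∪ Set.range (Sum.elim y u)) = ⊤
  semilinear : ∀ g c, ρ g (algebraMap M K c) = algebraMap M K (g c)
  linear : ∀ g a, ρ g (algebraMap κ K a) = algebraMap κ K a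
  invariant : ∀ g i, ρ g (y i) = y i
  monomial : ∀ g j, ∃ z ∈ monomialGroup κ y u, (z : K) = ρ g (u j)

theorem result :
    ∀ (E M : Type) [Field E] [NumberField E] [Field M] [NumberField M] [Algebra E M]
      [IsGalois E M],
      -- all ramification is tame
      IsTame E M →
      -- the base field, with a regular projective model
      ∀ (κ : Type) [Field κ] [Algebra E κ] (m : ℕ) (H : Fin (m + 1) → κ), IsRegularModel E H →
      -- the function field `F` of the torsor over `κ`, and the function field `K` over `κM`
      ∀ (F K : Type) [Field F] [Field K] [Algebra E F] [Algebra M K] [Algebra E K]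
      [IsScalarTower E M K] [Algebra F K] [IsScalarTower E F K] [Algebra κ K]
      [IsScalarTower E κ K]
      (n s : ℕ) (ρ : (M ≃ₐ[E] M) →* (K ≃ₐ[E] K)) (y : Fin n → K) (u : Fin s → K),
      IsTorsorFunctionField κ ρ y u →
      (∀ x, (∀ g, ρ g x = x) ↔ ∃ f : F, algebraMap F K f = x) →
      -- every integral scheme of finite type over the integers with the function field `F`
      ∀ (Y : Scheme.{0}) (_ : IsIntegral Y) (s : Y ⟶ Spec (CommRingCat.of ℤ)),
      LocallyOfFiniteType s → QuasiCompact s → Nonempty (Y.functionField ≃+* F) →
      ∃ (X' : Scheme.{0}) (_ : IsIntegral X') (g : X' ⟶ Spec (CommRingCat.of ℤ)),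
        IsProper g ∧
        (∀ x : X',
          (((Module.finrank (IsLocalRing.ResidueField (X'.presheaf.stalk x))
              (IsLocalRing.CotangentSpace (X'.presheaf.stalk x)) : ℕ∞)) : WithBot ℕ∞)
            = ringKrullDim (X'.presheaf.stalk x)) ∧
        Nonempty (X'.functionField ≃+* Y.functionField) := by
  intro E M _ _ _ _ _ _ hin κ _ _ m H hH F K _ _ _ _ _ _ _ _ _ _ n s ρ y u h hfix Y' _ st _ _ ⟨i⟩
  have hcard : ∀ 𝔓 : Ideal (𝓞 M), Nat.card (Pool.Agent.Y223.G.inert E 𝔓) =
      Nat.card (inertiaGroup E 𝔓) := by
    intro 𝔓
    have h1 : ((Pool.Agent.Y223.G.inert E 𝔓 : Subgroup (M ≃ₐ[E] M)) : Set (M ≃ₐ[E] M)) =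
        inertiaGroup E 𝔓 := by
      ext g
      constructor
      · intro hg o
        exact ⟨_, hg o, rfl⟩
      · intro hg o
        obtain ⟨e, he, h⟩ := hg o
        have h2 : e = Pool.Agent.Y223.G.TT E M g o - o := by
          apply NumberField.RingOfIntegers.coe_injective
          exact h
        rw [← h2]
        exact he
    exact congrArg (fun S : Set (M ≃ₐ[E] M) => Nat.card S) h1
  have hκ : Pool.Agent.N98.RM.HasRM (𝓞 E) κ := Pool.Agent.N808.PR.hasRM_surf (O := 𝓞 E) (F := E)
    (𝓞 E) 1 one_ne_zero (by simp) (fun c => ⟨0, c, by simp⟩) hH.trdeg H hH.ne_zero hH.generate
    (fun i 𝔭 h𝔭 _ => @IsRegularModel.regular E κ _ _ _ m H hH i 𝔭 h𝔭)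
  exact Pool.Agent.H865.TS.main1
    (fun 𝔓 h𝔓 p hp hp𝔓 hd => hin 𝔓 h𝔓 p hp hp𝔓 (by rwa [← hcard])) hκ hH.closed
    ρ h.semilinear h.linear hfix y u h.invariant h.algebraicIndependent h.generates h.monomial i

end Pool.Agent.Results.MP_4d1008_ag.TorusActions
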